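import Mathlib

/-!
Subgroups of `SL_n(K)`, `K` a field of characteristic zero, `n ≥ 3`, into which every element can be
brought back by conjugation with some positive power of any given element.
-/

set_option autoImplicit false

namespace Pool.Agent.R628

open Matrix

/-- Every element of `Δ` is conjugated into `Δ` by a positive power of any given element. -/
def WeakRec {G : Type*} [Group G] (Δ : Subgroup G) : Prop :=
  ∀ g : G, ∀ x ∈ Δ, ∃ m : ℕ, 0 < m ∧ (g ^ m)⁻¹ * x * g ^ m ∈ Δ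

variable {ι : Type*} [Fintype ι] [DecidableEq ι] {K : Type*} [Field K]

/-! ### linear algebra -/

lemma exists_dot_one {v : ι → K} (hv : v ≠ 0) : ∃ φ : ι → K, φ ⬝ᵥ v = 1 := by
  obtain ⟨i, hi⟩ := Function.ne_iff.mp hv
  refine ⟨Pi.single i (v i)⁻¹, ?_⟩
  rw [single_dotProduct]
  exact inv_mul_cancel₀ hi

lemma exists_dot_one' {v : ι → K} (hv : v ≠ 0) : ∃ φ : ι → K, v ⬝ᵥ φ = 1 := by
  obtain ⟨φ, h⟩ := exists_dot_one hv
  exact ⟨φ, by rw [dotProduct_comm]; exact h⟩

lemma exists_perp_two (hc : 3 ≤ Fintype.card ι) (v w : ι → K) :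
    ∃ χ : ι → K, χ ≠ 0 ∧ χ ⬝ᵥ v = 0 ∧ χ ⬝ᵥ w = 0 := by
  let f : (ι → K) →ₗ[K] (Fin 2 → K) := (Matrix.of ![v, w]).mulVecLin
  have hlt : Module.finrank K (Fin 2 → K) < Module.finrank K (ι → K) := by
    simp only [Module.finrank_fintype_fun_eq_card, Fintype.card_fin]
    omega
  have hker : LinearMap.ker f ≠ ⊥ := LinearMap.ker_ne_bot_of_finrank_lt hlt
  obtain ⟨χ, hχ, hne⟩ := Submodule.exists_mem_ne_zero_of_ne_bot hker
  refine ⟨χ, hne, ?_, ?_⟩
  · have := congrFun (LinearMap.mem_ker.mp hχ) 0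
    rw [dotProduct_comm]
    simpa [f, Matrix.mulVec] using this
  · have := congrFun (LinearMap.mem_ker.mp hχ) 1
    rw [dotProduct_comm]
    simpa [f, Matrix.mulVec] using this

lemma exists_sep {φ ψ : ι → K} (h : ∀ c : K, φ ≠ c • ψ) :
    ∃ w : ι → K, ψ ⬝ᵥ w = 0 ∧ φ ⬝ᵥ w = 1 := by
  by_cases hψ : ψ = 0
  · have hφ : φ ≠ 0 := by simpa using h 0
    obtain ⟨w, hw⟩ := exists_dot_one' hφ
    exact ⟨w, by simp [hψ], hw⟩
  · obtain ⟨u, hu⟩ := exists_dot_one' hψ
    have : ∃ x : ι → K, φ ⬝ᵥ (x - (ψ ⬝ᵥ x) • u) ≠ 0 := by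
      by_contra hcon
      push Not at hcon
      apply h (φ ⬝ᵥ u)
      funext i
      have := hcon (Pi.single i 1)
      simp only [dotProduct_sub, dotProduct_smul, dotProduct_single, mul_one, smul_eq_mul] at this
      simp only [Pi.smul_apply, smul_eq_mul]
      linear_combination this
    obtain ⟨x, hx⟩ := this
    refine ⟨(φ ⬝ᵥ (x - (ψ ⬝ᵥ x) • u))⁻¹ • (x - (ψ ⬝ᵥ x) • u), ?_, ?_⟩
    · simp [dotProduct_smul, dotProduct_sub, hu]
    · rw [dotProduct_smul, smul_eq_mul, inv_mul_cancel₀ hx]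

/-! ### transvections in a subgroup -/

/-- `Δ` contains the matrix `1 + v φ`. -/
def HasT (Δ : Subgroup (SpecialLinearGroup ι K)) (v φ : ι → K) : Prop :=
  ∃ g ∈ Δ, (g : Matrix ι ι K) = 1 + vecMulVec v φ

variable {Δ : Subgroup (SpecialLinearGroup ι K)}

lemma HasT.dot {v φ : ι → K} (h : HasT Δ v φ) : φ ⬝ᵥ v = 0 := by
  obtain ⟨g, -, hg⟩ := h
  have h1 := g.2
  rw [hg, vecMulVec_eq Unit, det_one_add_replicateCol_mul_replicateRow] at h1
  linear_combination h1

lemma HasT.add_right {v φ ψ : ι → K} (h : HasT Δ v φ) (h' : HasT Δ v ψ) :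
    HasT Δ v (φ + ψ) := by
  have h0 := h.dot
  obtain ⟨g, hg, hg'⟩ := h
  obtain ⟨k, hk, hk'⟩ := h'
  refine ⟨g * k, Δ.mul_mem hg hk, ?_⟩
  rw [Matrix.SpecialLinearGroup.coe_mul, hg', hk', mul_add, add_mul, add_mul, one_mul, one_mul, mul_one,
    vecMulVec_mul_vecMulVec, h0, zero_smul, vecMulVec_add]
  simp
  abel

lemma HasT.add_left {v w φ : ι → K} (h : HasT Δ v φ) (h' : HasT Δ w φ) :
    HasT Δ (v + w) φ := by
  have h0 := h'.dot
  obtain ⟨g, hg, hg'⟩ := h
  obtain ⟨k, hk, hk'⟩ := h'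
  refine ⟨g * k, Δ.mul_mem hg hk, ?_⟩
  rw [Matrix.SpecialLinearGroup.coe_mul, hg', hk', mul_add, add_mul, add_mul, one_mul, one_mul, mul_one,
    vecMulVec_mul_vecMulVec, h0, zero_smul, add_vecMulVec]
  simp
  abel

lemma HasT.smul_iff {v φ : ι → K} (a : K) : HasT Δ (a • v) φ ↔ HasT Δ v (a • φ) := by
  unfold HasT
  rw [smul_vecMulVec, vecMulVec_smul]

lemma HasT.zero_right (v : ι → K) : HasT Δ v 0 := ⟨1, Δ.one_mem, by simp⟩

lemma HasT.neg_right {v φ : ι → K} (h : HasT Δ v φ) : HasT Δ v (-φ) := by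
  have h0 := h.dot
  obtain ⟨g, hg, hg'⟩ := h
  refine ⟨g⁻¹, Δ.inv_mem hg, ?_⟩
  have h1 : (g : Matrix ι ι K) * (1 + vecMulVec v (-φ)) = 1 := by
    rw [hg', mul_add, add_mul, add_mul, one_mul, one_mul, mul_one,
      vecMulVec_mul_vecMulVec, h0, zero_smul, vecMulVec_neg]
    simp
  calc ((g⁻¹ : SpecialLinearGroup ι K) : Matrix ι ι K)
      = ((g⁻¹ : SpecialLinearGroup ι K) : Matrix ι ι K) *
        ((g : Matrix ι ι K) * (1 + vecMulVec v (-φ))) := by rw [h1, mul_one]
    _ = 1 + vecMulVec v (-φ) := by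
        rw [← mul_assoc, ← Matrix.SpecialLinearGroup.coe_mul, inv_mul_cancel, Matrix.SpecialLinearGroup.coe_one,
          one_mul]

lemma HasT.nsmul_right {v φ : ι → K} (h : HasT Δ v φ) (n : ℕ) : HasT Δ v ((n : K) • φ) := by
  induction n with
  | zero => simpa using HasT.zero_right v
  | succ n ih =>
    rw [Nat.cast_succ, add_smul, one_smul]
    exact ih.add_right h

/-- the transvection `1 + w ψ` as an element of `SL` -/
def trv (w ψ : ι → K) (h : ψ ⬝ᵥ w = 0) : SpecialLinearGroup ι K :=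
  ⟨1 + vecMulVec w ψ, by
    rw [vecMulVec_eq Unit, det_one_add_replicateCol_mul_replicateRow, h, add_zero]⟩

lemma trv_pow (w ψ : ι → K) (h : ψ ⬝ᵥ w = 0) (m : ℕ) :
    ((trv w ψ h ^ m : SpecialLinearGroup ι K) : Matrix ι ι K) = 1 + (m : K) • vecMulVec w ψ := by
  induction m with
  | zero => simp
  | succ m ih =>
    rw [pow_succ, Matrix.SpecialLinearGroup.coe_mul, ih]
    change (1 + (m : K) • vecMulVec w ψ) * (1 + vecMulVec w ψ) = _
    rw [mul_add, add_mul, add_mul, one_mul, one_mul, mul_one, smul_mul_assoc,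
      vecMulVec_mul_vecMulVec, h, zero_smul, Nat.cast_succ, add_smul, one_smul]
    simp
    abel

lemma coe_inv_of_mul {g : SpecialLinearGroup ι K} {A : Matrix ι ι K}
    (h : (g : Matrix ι ι K) * A = 1) : ((g⁻¹ : SpecialLinearGroup ι K) : Matrix ι ι K) = A := by
  calc ((g⁻¹ : SpecialLinearGroup ι K) : Matrix ι ι K)
      = ((g⁻¹ : SpecialLinearGroup ι K) : Matrix ι ι K) * ((g : Matrix ι ι K) * A) := by
        rw [h, mul_one]
    _ = A := by
        rw [← mul_assoc, ← Matrix.SpecialLinearGroup.coe_mul, inv_mul_cancel, Matrix.SpecialLinearGroup.coe_one,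
          one_mul]

lemma trv_pow_inv (w ψ : ι → K) (h : ψ ⬝ᵥ w = 0) (m : ℕ) :
    (((trv w ψ h ^ m)⁻¹ : SpecialLinearGroup ι K) : Matrix ι ι K) =
      1 - (m : K) • vecMulVec w ψ := by
  apply coe_inv_of_mul
  rw [trv_pow, mul_sub, mul_one, add_mul, one_mul, smul_mul_smul_comm,
    vecMulVec_mul_vecMulVec, h, zero_smul]
  simp

lemma HasT.conj {v φ : ι → K} {g : SpecialLinearGroup ι K} {x : SpecialLinearGroup ι K}
    (hx : (x : Matrix ι ι K) = 1 + vecMulVec v φ) :
    ((g⁻¹ * x * g : SpecialLinearGroup ι K) : Matrix ι ι K) =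
      1 + vecMulVec (((g⁻¹ : SpecialLinearGroup ι K) : Matrix ι ι K) *ᵥ v)
        (φ ᵥ* (g : Matrix ι ι K)) := by
  rw [Matrix.SpecialLinearGroup.coe_mul, Matrix.SpecialLinearGroup.coe_mul, hx, mul_add, mul_one, add_mul,
    ← Matrix.SpecialLinearGroup.coe_mul, inv_mul_cancel, Matrix.SpecialLinearGroup.coe_one, mul_vecMulVec,
    vecMulVec_mul]

/-- recurrence under a transvection -/
lemma rec_trv (hR : WeakRec Δ) {v φ w ψ : ι → K} (h : HasT Δ v φ) (hw : ψ ⬝ᵥ w = 0) :
    ∃ m : ℕ, 0 < m ∧ HasT Δ (v - ((m : K) * (ψ ⬝ᵥ v)) • w) (φ + ((m : K) * (φ ⬝ᵥ w)) • ψ) := by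
  obtain ⟨x, hx, hx'⟩ := h
  obtain ⟨m, hm, hmem⟩ := hR (trv w ψ hw) x hx
  refine ⟨m, hm, _, hmem, ?_⟩
  rw [HasT.conj hx', trv_pow, trv_pow_inv, sub_mulVec, one_mulVec, smul_mulVec,
    vecMulVec_mulVec, vecMul_add, vecMul_one, vecMul_smul, vecMul_vecMulVec]
  simp only [op_smul_eq_smul, smul_smul]

/-- the matrix `g` with `g v = p v` and `ξ g = p⁻¹ ξ` -/
lemma exists_scaling {v ξ : ι → K} (hv : v ≠ 0) (hξ : ξ ≠ 0) (h : ξ ⬝ᵥ v = 0) {p : K}
    (hp : p ≠ 0) : ∃ g : SpecialLinearGroup ι K,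
      (g : Matrix ι ι K) *ᵥ v = p • v ∧ ξ ᵥ* (g : Matrix ι ι K) = p⁻¹ • ξ := by
  obtain ⟨η, hη⟩ := exists_dot_one hv
  obtain ⟨u0, hu0⟩ := exists_dot_one' hξ
  set u : ι → K := u0 - (η ⬝ᵥ u0) • v with hu
  have h1 : ξ ⬝ᵥ u = 1 := by rw [hu, dotProduct_sub, dotProduct_smul, h, hu0]; simp
  have h2 : η ⬝ᵥ u = 0 := by rw [hu, dotProduct_sub, dotProduct_smul, hη]; simp
  have hdet1 : det (1 + vecMulVec v ((p - 1) • η)) = p := by
    rw [vecMulVec_eq Unit, det_one_add_replicateCol_mul_replicateRow, smul_dotProduct, hη]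
    simp
  have hdet2 : det (1 + vecMulVec u ((p⁻¹ - 1) • ξ)) = p⁻¹ := by
    rw [vecMulVec_eq Unit, det_one_add_replicateCol_mul_replicateRow, smul_dotProduct, h1]
    simp
  refine ⟨⟨(1 + vecMulVec v ((p - 1) • η)) * (1 + vecMulVec u ((p⁻¹ - 1) • ξ)), ?_⟩, ?_, ?_⟩
  · rw [det_mul, hdet1, hdet2, mul_inv_cancel₀ hp]
  · change ((1 + vecMulVec v ((p - 1) • η)) * (1 + vecMulVec u ((p⁻¹ - 1) • ξ))) *ᵥ v = _
    have e1 : (1 + vecMulVec u ((p⁻¹ - 1) • ξ)) *ᵥ v = v := by
      rw [add_mulVec, one_mulVec, vecMulVec_mulVec, smul_dotProduct, h, smul_zero]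
      simp only [MulOpposite.op_zero, zero_smul, add_zero]
    rw [← mulVec_mulVec, e1, add_mulVec, one_mulVec, vecMulVec_mulVec, smul_dotProduct, hη]
    simp only [op_smul_eq_smul, smul_eq_mul, mul_one]
    rw [sub_smul, one_smul]
    abel
  · change ξ ᵥ* ((1 + vecMulVec v ((p - 1) • η)) * (1 + vecMulVec u ((p⁻¹ - 1) • ξ))) = _
    have e1 : ξ ᵥ* (1 + vecMulVec v ((p - 1) • η)) = ξ := by
      rw [vecMul_add, vecMul_one, vecMul_vecMulVec, h, zero_smul, add_zero]
    rw [← vecMul_vecMul, e1, vecMul_add, vecMul_one, vecMul_vecMulVec, h1, one_smul, sub_smul,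
      one_smul]
    abel

lemma pow_mulVec {g : SpecialLinearGroup ι K} {v : ι → K} {p : K}
    (h : (g : Matrix ι ι K) *ᵥ v = p • v) (m : ℕ) :
    ((g ^ m : SpecialLinearGroup ι K) : Matrix ι ι K) *ᵥ v = p ^ m • v := by
  induction m with
  | zero => simp
  | succ m ih =>
    rw [pow_succ, Matrix.SpecialLinearGroup.coe_mul, ← mulVec_mulVec, h, mulVec_smul, ih, smul_smul,
      pow_succ, mul_comm]

lemma vecMul_pow' {g : SpecialLinearGroup ι K} {ξ : ι → K} {p : K}
    (h : ξ ᵥ* (g : Matrix ι ι K) = p • ξ) (m : ℕ) :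
    ξ ᵥ* ((g ^ m : SpecialLinearGroup ι K) : Matrix ι ι K) = p ^ m • ξ := by
  induction m with
  | zero => simp
  | succ m ih =>
    rw [pow_succ, Matrix.SpecialLinearGroup.coe_mul, ← vecMul_vecMul, ih, smul_vecMul, h, smul_smul,
      pow_succ]

/-- divisibility -/
lemma HasT.div [CharZero K] (hR : WeakRec Δ) {v ξ : ι → K} (h : HasT Δ v ξ) (p : ℕ)
    (hp : 0 < p) : HasT Δ v ((p : K)⁻¹ • ξ) := by
  by_cases hv : v = 0
  · exact ⟨1, Δ.one_mem, by simp [hv]⟩
  by_cases hξ : ξ = 0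
  · simpa [hξ] using HasT.zero_right v
  have hp' : (p : K) ≠ 0 := by exact_mod_cast hp.ne'
  have h0 := h.dot
  obtain ⟨g, hg1, hg2⟩ := exists_scaling hv hξ h0 hp'
  obtain ⟨x, hx, hx'⟩ := h
  obtain ⟨m, hm, hmem⟩ := hR g x hx
  have hinv : (((g ^ m)⁻¹ : SpecialLinearGroup ι K) : Matrix ι ι K) *ᵥ v = ((p : K) ^ m)⁻¹ • v := by
    have h1 := pow_mulVec hg1 m
    have h2 : v = (((g ^ m)⁻¹ : SpecialLinearGroup ι K) : Matrix ι ι K) *ᵥ
        (((g ^ m : SpecialLinearGroup ι K) : Matrix ι ι K) *ᵥ v) := by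
      rw [mulVec_mulVec, ← Matrix.SpecialLinearGroup.coe_mul, inv_mul_cancel, Matrix.SpecialLinearGroup.coe_one,
        one_mulVec]
    rw [h1, mulVec_smul] at h2
    conv_rhs => rw [h2]
    rw [smul_smul, inv_mul_cancel₀ (pow_ne_zero _ hp'), one_smul]
  have h3 : HasT Δ (((p : K) ^ m)⁻¹ • v) (((p : K)⁻¹) ^ m • ξ) :=
    ⟨_, hmem, by rw [HasT.conj hx', hinv, vecMul_pow' hg2]⟩
  rw [HasT.smul_iff, smul_smul] at h3
  have h4 := h3.nsmul_right (p ^ (2 * m - 1))
  rw [smul_smul] at h4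
  convert h4 using 2
  have h5 : 2 * m = (2 * m - 1) + 1 := by omega
  have h6 : (p : K) ^ m * (p : K) ^ m = (p : K) ^ (2 * m - 1) * p := by
    rw [← pow_add, ← two_mul, ← pow_succ, ← h5]
  rw [inv_pow, ← mul_inv, h6, Nat.cast_pow, mul_inv, ← mul_assoc,
    mul_inv_cancel₀ (pow_ne_zero _ hp'), one_mul]

lemma HasT.of_sep [CharZero K] (hR : WeakRec Δ) {v φ ψ : ι → K} (h : HasT Δ v φ)
    (hψ : ψ ⬝ᵥ v = 0) (hsep : ∀ c : K, φ ≠ c • ψ) : HasT Δ v ψ := by
  obtain ⟨w, hw1, hw2⟩ := exists_sep hsep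
  obtain ⟨m, hm, h1⟩ := rec_trv hR h hw1
  rw [hψ, hw2, mul_zero, zero_smul, sub_zero, mul_one] at h1
  have h2 := h.neg_right.add_right h1
  rw [neg_add_cancel_left] at h2
  have h3 := h2.div hR m hm
  rwa [smul_smul, inv_mul_cancel₀ (by exact_mod_cast hm.ne'), one_smul] at h3

lemma HasT.all_right [CharZero K] (hc : 3 ≤ Fintype.card ι) (hR : WeakRec Δ) {v φ : ι → K}
    (h : HasT Δ v φ) (hφ : φ ≠ 0) {ψ : ι → K} (hψ : ψ ⬝ᵥ v = 0) : HasT Δ v ψ := by
  by_cases hsep : ∀ c : K, φ ≠ c • ψ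
  · exact h.of_sep hR hψ hsep
  push Not at hsep
  obtain ⟨c, hc'⟩ := hsep
  have hψ0 : ψ ≠ 0 := by
    rintro rfl
    exact hφ (by simpa using hc')
  obtain ⟨u, hu⟩ := exists_dot_one' hψ0
  obtain ⟨χ, hχ0, hχv, hχu⟩ := exists_perp_two hc v u
  have hsep2 : ∀ a : K, χ ≠ a • ψ := by
    intro a ha
    rw [ha, smul_dotProduct, hu, smul_eq_mul, mul_one] at hχu
    rw [hχu, zero_smul] at ha
    exact hχ0 ha
  have hsep1 : ∀ a : K, φ ≠ a • χ := by
    intro a ha
    have h1 : φ ⬝ᵥ u = 0 := by rw [ha, smul_dotProduct, hχu, smul_zero]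
    rw [hc', smul_dotProduct, hu, smul_eq_mul, mul_one] at h1
    rw [h1, zero_smul] at hc'
    exact hφ hc'
  exact (h.of_sep hR hχv hsep1).of_sep hR hψ hsep2

lemma HasT.all [CharZero K] (hc : 3 ≤ Fintype.card ι) (hR : WeakRec Δ) {v φ : ι → K}
    (h : HasT Δ v φ) (hv : v ≠ 0) (hφ : φ ≠ 0) {w ψ : ι → K} (hψ : ψ ⬝ᵥ w = 0) :
    HasT Δ w ψ := by
  by_cases hw : w = 0
  · exact ⟨1, Δ.one_mem, by simp [hw]⟩
  by_cases hsep : ∀ c : K, v ≠ c • w
  · obtain ⟨χ, hχ0, hχv, hχw⟩ := exists_perp_two hc v w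
    have h1 : HasT Δ v χ := h.all_right hc hR hφ hχv
    obtain ⟨η, hη1, hη2⟩ := exists_sep hsep
    rw [dotProduct_comm] at hη1 hη2
    obtain ⟨m, hm, h2⟩ := rec_trv hR h1 hη1
    rw [hη2, hχw, mul_zero, zero_smul, add_zero, mul_one] at h2
    have h3 : HasT Δ (-v) χ := by
      have := h1.neg_right
      rw [← neg_one_smul K χ, ← HasT.smul_iff, neg_one_smul] at this
      exact this
    have h4 := h3.add_left h2
    have h5 : -v + (v - (m : K) • w) = (-(m : K)) • w := by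
      rw [neg_smul]; abel
    rw [h5, HasT.smul_iff] at h4
    refine h4.all_right hc hR ?_ hψ
    refine smul_ne_zero ?_ hχ0
    rw [neg_ne_zero]
    exact_mod_cast hm.ne'
  · push Not at hsep
    obtain ⟨c, hc'⟩ := hsep
    have hc0 : c ≠ 0 := by
      rintro rfl
      exact hv (by simpa using hc')
    have h1 : HasT Δ v (c⁻¹ • ψ) := by
      refine h.all_right hc hR hφ ?_
      rw [hc', smul_dotProduct, dotProduct_smul, hψ]
      simp
    rw [hc', HasT.smul_iff, smul_smul, mul_inv_cancel₀ hc0, one_smul] at h1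
    exact h1

/-! ### the whole group -/

lemma eq_top_of_transvections (hc : 2 ≤ Fintype.card ι)
    (h : ∀ (i j : ι) (hij : i ≠ j) (a : K), Matrix.SpecialLinearGroup.transvection hij a ∈ Δ) :
    Δ = ⊤ := by
  have hnt : Nontrivial ι := Fintype.one_lt_card_iff_nontrivial.mp (by omega)
  rw [eq_top_iff]
  intro g _
  refine Matrix.SpecialLinearGroup.diagonal_transvection_induction' (fun g => g ∈ Δ) g ?_ h
    (fun A B hA hB => Δ.mul_mem hA hB)
  intro i j hij c hc
  -- `diag(c, c⁻¹)` as a product of transvections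
  have key : Matrix.SpecialLinearGroup.diag2n hij c hc =
      Matrix.SpecialLinearGroup.transvection hij c * Matrix.SpecialLinearGroup.transvection hij.symm (-c⁻¹) *
      Matrix.SpecialLinearGroup.transvection hij c *
      (Matrix.SpecialLinearGroup.transvection hij (-1) * Matrix.SpecialLinearGroup.transvection hij.symm 1 *
      Matrix.SpecialLinearGroup.transvection hij (-1)) := by
    apply Subtype.ext
    simp only [Matrix.SpecialLinearGroup.coe_mul, Matrix.SpecialLinearGroup.transvection_coe,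
      Matrix.SpecialLinearGroup.diag2n_coe]
    have e1 : ∀ a b : K, single i j a * single i j b = (0 : Matrix ι ι K) := fun a b =>
      single_mul_single_of_ne _ _ _ _ hij.symm _
    have e2 : ∀ a b : K, single j i a * single j i b = (0 : Matrix ι ι K) := fun a b =>
      single_mul_single_of_ne _ _ _ _ hij _
    have e3 : ∀ a b : K, single i j a * single j i b = (single i i (a * b) : Matrix ι ι K) :=
      fun a b => single_mul_single_same _ _ _ _ _
    have e4 : ∀ a b : K, single j i a * single i j b = (single j j (a * b) : Matrix ι ι K) :=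
      fun a b => single_mul_single_same _ _ _ _ _
    have e5 : ∀ a b : K, single i i a * single i j b = (single i j (a * b) : Matrix ι ι K) :=
      fun a b => single_mul_single_same _ _ _ _ _
    have e6 : ∀ a b : K, single j j a * single j i b = (single j i (a * b) : Matrix ι ι K) :=
      fun a b => single_mul_single_same _ _ _ _ _
    have e7 : ∀ a b : K, single i i a * single j i b = (0 : Matrix ι ι K) := fun a b =>
      single_mul_single_of_ne _ _ _ _ hij _
    have e8 : ∀ a b : K, single j j a * single i j b = (0 : Matrix ι ι K) := fun a b =>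
      single_mul_single_of_ne _ _ _ _ hij.symm _
    have e9 : ∀ a b : K, single i j a * single j j b = (single i j (a * b) : Matrix ι ι K) :=
      fun a b => single_mul_single_same _ _ _ _ _
    have e10 : ∀ a b : K, single j i a * single i i b = (single j i (a * b) : Matrix ι ι K) :=
      fun a b => single_mul_single_same _ _ _ _ _
    have e11 : ∀ a b : K, single i j a * single i i b = (0 : Matrix ι ι K) := fun a b =>
      single_mul_single_of_ne _ _ _ _ hij.symm _
    have e12 : ∀ a b : K, single j i a * single j j b = (0 : Matrix ι ι K) := fun a b =>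
      single_mul_single_of_ne _ _ _ _ hij _
    have e13 : ∀ a b : K, single i i a * single i i b = (single i i (a * b) : Matrix ι ι K) :=
      fun a b => single_mul_single_same _ _ _ _ _
    have e14 : ∀ a b : K, single j j a * single j j b = (single j j (a * b) : Matrix ι ι K) :=
      fun a b => single_mul_single_same _ _ _ _ _
    have e15 : ∀ a b : K, single i i a * single j j b = (0 : Matrix ι ι K) := fun a b =>
      single_mul_single_of_ne _ _ _ _ hij _
    have e16 : ∀ a b : K, single j j a * single i i b = (0 : Matrix ι ι K) := fun a b =>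
      single_mul_single_of_ne _ _ _ _ hij.symm _
    have d : diagonal (fun k ↦ if k = i then c else if k = j then c⁻¹ else 1) =
        (1 : Matrix ι ι K) + single i i (c - 1) + single j j (c⁻¹ - 1) := by
      ext k l
      by_cases hkl : k = l
      · subst hkl
        by_cases hki : k = i
        · subst hki
          simp [single_apply, hij, hij.symm]
        · by_cases hkj : k = j
          · subst hkj
            simp [single_apply, hij, hij.symm]
          · simp [single_apply, hki, hkj, Ne.symm hki, Ne.symm hkj]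
      · have h1 : ¬ (i = k ∧ i = l) := fun h => hkl (h.1.symm.trans h.2)
        have h2 : ¬ (j = k ∧ j = l) := fun h => hkl (h.1.symm.trans h.2)
        simp [single_apply, hkl, h1, h2]
    rw [d]
    simp only [mul_add, add_mul, mul_one, one_mul, e1, e2, e3, e4, e5, e6, e7, e8, e9, e10, e11,
      e12, e13, e14, e15, e16, add_zero, zero_add, zero_mul, mul_zero]
    ext k l
    simp only [Matrix.add_apply, single_apply, one_apply]
    by_cases hki : i = k <;> by_cases hkj : j = k <;> by_cases hli : i = l <;>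
      by_cases hlj : j = l <;> simp_all
  rw [key]
  exact Δ.mul_mem (Δ.mul_mem (Δ.mul_mem (h _ _ _ _) (h _ _ _ _)) (h _ _ _ _))
    (Δ.mul_mem (Δ.mul_mem (h _ _ _ _) (h _ _ _ _)) (h _ _ _ _))

/-- A nontrivial transvection in a noncentral subgroup with the recurrence property. -/
lemma exists_transvection [CharZero K] (hc : 3 ≤ Fintype.card ι) (hR : WeakRec Δ)
    {x : SpecialLinearGroup ι K} (hx : x ∈ Δ) (hxc : x ∉ Subgroup.center _) :
    ∃ v φ : ι → K, v ≠ 0 ∧ φ ≠ 0 ∧ HasT Δ v φ := by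
  -- a vector that is not an eigenvector of `x⁻¹`
  have h1 : ∃ v : ι → K, LinearIndependent K ![v, ((x⁻¹ : SpecialLinearGroup ι K) : Matrix ι ι K) *ᵥ v] := by
    by_contra hcon
    push Not at hcon
    obtain ⟨a, ha⟩ := LinearMap.exists_eq_smul_id_of_forall_notLinearIndependent
      (f := ((x⁻¹ : SpecialLinearGroup ι K) : Matrix ι ι K).mulVecLin) hcon
    have h2 : ((x⁻¹ : SpecialLinearGroup ι K) : Matrix ι ι K) = scalar ι a := by
      ext i j
      have := congrFun (LinearMap.congr_fun ha (Pi.single j 1)) i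
      simpa [Pi.single_apply, Matrix.one_apply, diagonal_apply] using this
    apply hxc
    rw [← Subgroup.inv_mem_iff, Matrix.SpecialLinearGroup.mem_center_iff]
    refine ⟨a, ?_, h2.symm⟩
    have h3 := (x⁻¹).2
    rw [h2] at h3
    simpa using h3
  obtain ⟨v, hv⟩ := h1
  set v' := ((x⁻¹ : SpecialLinearGroup ι K) : Matrix ι ι K) *ᵥ v with hv'
  obtain ⟨φ, hφ0, hφv, -⟩ := exists_perp_two hc v v
  obtain ⟨m, hm, hmem⟩ := hR (trv v φ hφv) x hx
  set φ' := φ ᵥ* (x : Matrix ι ι K) with hφ'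
  have hm' : (m : K) ≠ 0 := by exact_mod_cast hm.ne'
  -- the commutator
  set y := x⁻¹ * ((trv v φ hφv ^ m)⁻¹ * x * trv v φ hφv ^ m) with hy
  have hyΔ : y ∈ Δ := Δ.mul_mem (Δ.inv_mem hx) hmem
  have hy1 : (y : Matrix ι ι K) = (1 - (m : K) • vecMulVec v' φ') * (1 + (m : K) • vecMulVec v φ) := by
    have e1 : y = (x⁻¹ * (trv v φ hφv ^ m)⁻¹ * x) * trv v φ hφv ^ m := by
      rw [hy]; group
    rw [e1, Matrix.SpecialLinearGroup.coe_mul, Matrix.SpecialLinearGroup.coe_mul, Matrix.SpecialLinearGroup.coe_mul,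
      trv_pow, trv_pow_inv, mul_sub, mul_one, sub_mul, ← Matrix.SpecialLinearGroup.coe_mul,
      inv_mul_cancel, Matrix.SpecialLinearGroup.coe_one, mul_smul_comm, mul_vecMulVec, smul_mul_assoc,
      vecMulVec_mul]
  have hy2 : (y : Matrix ι ι K) - 1 =
      vecMulVec v ((m : K) • φ) +
        vecMulVec v' (-((m : K) • φ') - ((m : K) * m * (φ' ⬝ᵥ v)) • φ) := by
    rw [hy1, mul_add, mul_one, sub_mul, one_mul, smul_mul_smul_comm, vecMulVec_mul_vecMulVec,
      vecMulVec_sub, vecMulVec_neg, vecMulVec_smul, vecMulVec_smul, vecMulVec_smul,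
      vecMulVec_smul, smul_smul]
    abel
  have hyne : (y : Matrix ι ι K) - 1 ≠ 0 := by
    intro h0
    rw [hy2] at h0
    apply hφ0
    funext j
    have h2 : ∀ i, v i * ((m : K) * φ j) +
        v' i * (-((m : K) * φ' j) - (m : K) * m * (φ' ⬝ᵥ v) * φ j) = 0 := by
      intro i
      have := congrFun (congrFun h0 i) j
      simp only [Matrix.add_apply, vecMulVec_apply, Pi.smul_apply, Pi.sub_apply, Pi.neg_apply,
        smul_eq_mul, Matrix.zero_apply] at this
      linear_combination this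
    have h3 := LinearIndependent.pair_iff.mp hv ((m : K) * φ j)
      (-((m : K) * φ' j) - (m : K) * m * (φ' ⬝ᵥ v) * φ j) (by
        funext i
        simp only [Pi.add_apply, Pi.smul_apply, smul_eq_mul, Pi.zero_apply]
        linear_combination h2 i)
    have h4 := h3.1
    simpa [hm'] using h4
  -- a fixed vector
  obtain ⟨w, hw0, hw1, hw2⟩ := exists_perp_two hc φ φ'
  rw [dotProduct_comm] at hw1 hw2
  have hyw : (y : Matrix ι ι K) *ᵥ w = w := by
    rw [hy1, ← mulVec_mulVec, add_mulVec, one_mulVec, smul_mulVec, vecMulVec_mulVec, hw1]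
    simp only [MulOpposite.op_zero, zero_smul, smul_zero, add_zero]
    rw [sub_mulVec, one_mulVec, smul_mulVec, vecMulVec_mulVec, hw2]
    simp
  by_cases hψ : ∃ ψ : ι → K, ψ ⬝ᵥ w = 0 ∧ ψ ᵥ* (y : Matrix ι ι K) ≠ ψ
  · obtain ⟨ψ, hψw, hψy⟩ := hψ
    obtain ⟨k, hk, hkmem⟩ := hR (trv w ψ hψw) y hyΔ
    have hk' : (k : K) ≠ 0 := by exact_mod_cast hk.ne'
    refine ⟨w, (k : K) • (ψ - ψ ᵥ* (y : Matrix ι ι K)), hw0,
      smul_ne_zero hk' (sub_ne_zero.mpr hψy.symm),
      y⁻¹ * ((trv w ψ hψw ^ k)⁻¹ * y * trv w ψ hψw ^ k), Δ.mul_mem (Δ.inv_mem hyΔ) hkmem, ?_⟩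
    have e1 : y⁻¹ * ((trv w ψ hψw ^ k)⁻¹ * y * trv w ψ hψw ^ k) =
        (y⁻¹ * (trv w ψ hψw ^ k)⁻¹ * y) * trv w ψ hψw ^ k := by group
    have hyw' : ((y⁻¹ : SpecialLinearGroup ι K) : Matrix ι ι K) *ᵥ w = w := by
      conv_lhs => rw [← hyw]
      rw [mulVec_mulVec, ← Matrix.SpecialLinearGroup.coe_mul, inv_mul_cancel, Matrix.SpecialLinearGroup.coe_one,
        one_mulVec]
    have hdot : (ψ ᵥ* (y : Matrix ι ι K)) ⬝ᵥ w = 0 := by
      rw [← dotProduct_mulVec, hyw, hψw]
    rw [e1, Matrix.SpecialLinearGroup.coe_mul, Matrix.SpecialLinearGroup.coe_mul, Matrix.SpecialLinearGroup.coe_mul,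
      trv_pow, trv_pow_inv, mul_sub, mul_one, sub_mul, ← Matrix.SpecialLinearGroup.coe_mul,
      inv_mul_cancel, Matrix.SpecialLinearGroup.coe_one, mul_smul_comm, mul_vecMulVec, smul_mul_assoc,
      vecMulVec_mul, hyw', mul_add, mul_one, sub_mul, one_mul, smul_mul_smul_comm,
      vecMulVec_mul_vecMulVec, hdot, zero_smul, vecMulVec_smul, vecMulVec_sub]
    simp only [vecMulVec_zero, smul_zero, sub_zero, smul_sub]
    abel
  · push Not at hψ
    obtain ⟨η, hη⟩ := exists_dot_one hw0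
    refine ⟨w, η ᵥ* ((y : Matrix ι ι K) - 1), hw0, ?_, y, hyΔ, ?_⟩
    · intro h0
      apply hyne
      ext i j
      have h2 := hψ (Pi.single i 1 - w i • η) (by
        rw [sub_dotProduct, smul_dotProduct, hη, single_dotProduct]; simp)
      have h3 : (Pi.single i (1 : K) - w i • η) ᵥ* ((y : Matrix ι ι K) - 1) = 0 := by
        rw [vecMul_sub, vecMul_one, h2, sub_self]
      rw [sub_vecMul, smul_vecMul, h0, smul_zero, sub_zero] at h3
      have := congrFun h3 j
      simpa [single_vecMul] using this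
    · ext i j
      have h2 := hψ (Pi.single i 1 - w i • η) (by
        rw [sub_dotProduct, smul_dotProduct, hη, single_dotProduct]; simp)
      have h3 : (Pi.single i (1 : K) - w i • η) ᵥ* ((y : Matrix ι ι K) - 1) = 0 := by
        rw [vecMul_sub, vecMul_one, h2, sub_self]
      rw [sub_vecMul, smul_vecMul] at h3
      have := congrFun h3 j
      simp only [Pi.sub_apply, Pi.smul_apply, smul_eq_mul, Pi.zero_apply] at this
      have h4 : (Pi.single i (1 : K) ᵥ* ((y : Matrix ι ι K) - 1)) j = (y : Matrix ι ι K) i j - (1 : Matrix ι ι K) i j := by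
        simp [single_vecMul]
      rw [h4] at this
      rw [Matrix.add_apply, vecMulVec_apply]
      linear_combination this

/-- **Main lemma.** -/
theorem weakRec_SL [CharZero K] (hc : 3 ≤ Fintype.card ι) (hR : WeakRec Δ) :
    Δ ≤ Subgroup.center _ ∨ Δ = ⊤ := by
  by_cases h : Δ ≤ Subgroup.center _
  · exact Or.inl h
  right
  obtain ⟨x, hx, hxc⟩ := SetLike.not_le_iff_exists.mp h
  obtain ⟨v, φ, hv, hφ, hT⟩ := exists_transvection hc hR hx hxc
  apply eq_top_of_transvections (by omega)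
  intro i j hij a
  obtain ⟨g, hg, hg'⟩ := hT.all hc hR hv hφ (w := Pi.single i 1) (ψ := Pi.single j a) (by
    rw [single_dotProduct]; simp [hij.symm])
  convert hg
  apply Subtype.ext
  rw [hg', Matrix.SpecialLinearGroup.transvection_coe]
  congr 1
  ext k l
  simp only [single_apply, vecMulVec_apply, Pi.single_apply]
  by_cases hk : i = k <;> by_cases hl : j = l <;> simp [hk, hl, eq_comm]

end Pool.Agent.R628
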